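import Mathlib

namespace Pool.Agent.Results.MP_1bfbc2_co.Formula

open Finset Relation

section
variable {P X : Type} (act : P → X → X) (A : Finset P)

/-- number of orbits of the group generated by `A` on `X` -/
noncomputable def orbits : ℕ := Nat.card (Quot fun x y : X => ∃ σ ∈ A, y = act σ x)

/-- one signed step `(x, b) ↦ (σ x, ¬ b)` with `σ ∈ A` -/
def step (u v : X × Bool) : Prop := ∃ σ ∈ A, v = (act σ u.1, !u.2)

open Classical in
/-- `2 ^ orbits` if no word of odd length in `A` and its inverses fixes a point of `X`, else `0` -/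
noncomputable def term : ℤ :=
  if ∀ x, ¬ EqvGen (step act A) (x, true) (x, false) then 2 ^ orbits act A else 0

end

/-- the inclusion-exclusion sum over nonempty sets of permutations -/
noncomputable def formula (p : ℕ) {X : Type} (act : Equiv.Perm (Fin p) → X → X) : ℤ :=
  ∑ A ∈ univ.filter fun A : Finset (Equiv.Perm (Fin p)) => A.Nonempty,
    (-1) ^ (A.card + 1) * term act A

/-- action on unordered pairs of distinct points -/
def act2 {p : ℕ} (σ : Equiv.Perm (Fin p)) (e : {e : Sym2 (Fin p) // ¬ e.IsDiag}) :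
    {e : Sym2 (Fin p) // ¬ e.IsDiag} := ⟨e.1.map σ, by rw [Sym2.isDiag_map σ.injective]; exact e.2⟩

/-- action on ordered pairs of distinct points -/
def actO {p : ℕ} (σ : Equiv.Perm (Fin p)) (e : {e : Fin p × Fin p // e.1 ≠ e.2}) :
    {e : Fin p × Fin p // e.1 ≠ e.2} := ⟨(σ e.1.1, σ e.1.2), σ.injective.ne e.2⟩

/-- labeled self-complementary graphs -/
noncomputable def s (p : ℕ) : ℕ := Nat.card {G : SimpleGraph (Fin p) // Nonempty (G ≃g Gᶜ)}

/-- labeled self-complementary digraphs (loopless relations isomorphic to their complement) -/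
noncomputable def S (p : ℕ) : ℕ := Nat.card {D : Fin p → Fin p → Prop // (∀ u, ¬ D u u) ∧
  ∃ σ : Equiv.Perm (Fin p), ∀ u v, D u v ↔ (σ u ≠ σ v ∧ ¬ D (σ u) (σ v))}

lemma one {P X : Type} [Fintype X] [DecidableEq X] (act : P → X → X) (A : Finset P) :
    (#{g : X → Bool | ∀ σ ∈ A, ∀ x, g (act σ x) = !g x} : ℤ) = term act A := by
  classical
  have inv : ∀ g : X → Bool, (∀ σ ∈ A, ∀ x, g (act σ x) = !g x) → ∀ u v,
      EqvGen (step act A) u v → (g u.1 = u.2 ↔ g v.1 = v.2) := fun g hg u v h => by
    induction h with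
    | rel u v h => obtain ⟨σ, hσ, rfl⟩ := h; simp [hg σ hσ]
    | refl => rfl
    | symm _ _ _ h => exact h.symm
    | trans _ _ _ _ _ h1 h2 => exact h1.trans h2
  unfold term
  split_ifs with h
  swap
  · push Not at h
    obtain ⟨x, hx⟩ := h
    rw [Nat.cast_eq_zero, card_eq_zero, filter_eq_empty_iff]
    intro g _ hg
    have := inv g hg _ _ hx
    simp at this
  let r := fun x y : X => ∃ σ ∈ A, y = act σ x
  have lift : ∀ x y, EqvGen r x y → ∀ b, ∃ c, EqvGen (step act A) (x, b) (y, c) := fun x y h => by
    have fl : ∀ u v, EqvGen (step act A) u v →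
        EqvGen (step act A) (u.1, !u.2) (v.1, !v.2) := fun u v h => by
      induction h with
      | rel u v h => obtain ⟨σ, hσ, rfl⟩ := h; exact .rel _ _ ⟨σ, hσ, rfl⟩
      | refl => exact .refl _
      | symm _ _ _ h => exact h.symm
      | trans _ _ _ _ _ h1 h2 => exact h1.trans _ _ _ h2
    induction h with
    | rel x y h => obtain ⟨σ, hσ, rfl⟩ := h; exact fun b => ⟨!b, .rel _ _ ⟨σ, hσ, rfl⟩⟩
    | refl => exact fun b => ⟨b, .refl _⟩
    | symm x y _ h =>
      intro b
      obtain ⟨c, hc⟩ := h true
      by_cases e : c = b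
      · exact ⟨true, e ▸ hc.symm⟩
      · have := (fl _ _ hc).symm
        rw [show (!c) = b by revert e; cases b <;> cases c <;> simp] at this
        exact ⟨_, this⟩
    | trans _ _ _ _ _ h1 h2 =>
      intro b
      obtain ⟨c, hc⟩ := h1 b
      obtain ⟨d, hd⟩ := h2 c
      exact ⟨d, hc.trans _ _ _ hd⟩
  have hout : ∀ x (b : Bool), ∃ c, EqvGen (step act A) ((Quot.mk r x).out, b) (x, c) :=
    fun x => lift _ _ (Quot.eqvGen_exact (Quot.out_eq _))
  have uq : ∀ u x (b c : Bool), EqvGen (step act A) u (x, b) → EqvGen (step act A) u (x, c) →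
      b = c := fun u x b c h1 h2 => by
    by_contra e
    cases b <;> cases c <;> simp at e
    · exact h x (h2.symm.trans _ _ _ h1)
    · exact h x (h1.symm.trans _ _ _ h2)
  have : Fintype (Quot r) := Fintype.ofFinite _
  have : #{g : X → Bool | ∀ σ ∈ A, ∀ x, g (act σ x) = !g x} = #(univ : Finset (Quot r → Bool)) := by
    refine card_bij (fun g _ q => g q.out) (fun _ _ => mem_univ _) (fun g hg g' hg' e => ?_)
      fun f _ => ?_
    · funext x
      obtain ⟨c, hc⟩ := hout x (g (Quot.mk r x).out)
      exact ((inv g (mem_filter.1 hg).2 _ _ hc).1 rfl).trans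
        ((inv g' (mem_filter.1 hg').2 _ _ hc).1 (congrFun e _).symm).symm
    · choose g hg using fun x => hout x (f (Quot.mk r x))
      refine ⟨g, mem_filter.2 ⟨mem_univ _, fun σ hσ x => ?_⟩, funext fun q => ?_⟩
      · have := hg (act σ x)
        rw [← Quot.sound (r := r) ⟨σ, hσ, rfl⟩] at this
        exact uq _ _ _ _ this ((hg x).trans _ _ _ (.rel _ _ ⟨σ, hσ, rfl⟩))
      · have := hg q.out
        rw [Quot.out_eq] at this
        exact uq _ _ _ _ this (.refl _)
  rw [this]
  simp [orbits, r]

lemma two (p : ℕ) {X : Type} [Fintype X] [DecidableEq X] (act : Equiv.Perm (Fin p) → X → X) :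
    (Nat.card {g : X → Bool // ∃ σ, ∀ x, g (act σ x) = !g x} : ℤ) = formula p act := by
  have := inclusion_exclusion_card_biUnion (univ : Finset (Equiv.Perm (Fin p)))
    fun σ => ({g | ∀ x, g (act σ x) = !g x} : Finset (X → Bool))
  rw [Nat.card_eq_fintype_card, Fintype.card_subtype]
  convert this using 1
  · congr 2; ext; simp
  · rw [formula, ← sum_coe_sort, powerset_univ]
    refine sum_congr rfl fun A _ => ?_
    rw [← one]
    congr 3; ext; simp

theorem result (p : ℕ) : (s p : ℤ) = formula p act2 ∧ (S p : ℤ) = formula p actO := by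
  classical
  rw [← two, ← two]
  constructor
  · refine congrArg _ (Nat.card_congr (Equiv.subtypeEquiv
      ⟨fun G e => decide (e.1 ∈ G.edgeSet), fun g => SimpleGraph.fromEdgeSet
        {e | ∃ h, g ⟨e, h⟩ = true}, fun G => ?_, fun g => ?_⟩ fun G => ?_))
    · ext u v
      have : G.Adj u v → u ≠ v := G.ne_of_adj
      simp; tauto
    · funext e
      simp [e.2]
    · constructor
      · rintro ⟨f⟩
        refine ⟨f.toEquiv, ?_⟩
        rintro ⟨e, he⟩
        induction e using Sym2.ind with | _ u v => ?_
        have h2 := f.map_adj_iff (v := u) (w := v)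
        have h3 : f u ≠ f v := f.injective.ne (by simpa using he)
        rw [SimpleGraph.compl_adj] at h2
        simp [act2]; grind
      · rintro ⟨σ, h⟩
        refine ⟨⟨σ, fun {u v} => ?_⟩⟩
        by_cases e : u = v
        · simp [e]
        · have := h ⟨s(u, v), by simpa using e⟩
          simp [act2] at this
          simp [e]; grind
  · refine congrArg _ (Nat.card_congr (((Equiv.subtypeSubtypeEquivSubtypeInter _ _).symm).trans
      (Equiv.subtypeEquiv ⟨fun D e => decide (D.1 e.1.1 e.1.2), fun g =>
        ⟨fun u v => ∃ h, g ⟨(u, v), h⟩ = true, fun u h => h.1 rfl⟩, fun D => ?_, fun g => ?_⟩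
        fun D => exists_congr fun σ => ?_)))
    · ext u v
      have := D.2 u
      simp; grind
    · funext e
      simp [e.2]
    · constructor
      · rintro h ⟨⟨u, v⟩, e⟩
        have := h u v
        have := σ.injective.ne e
        simp [actO]; grind
      · intro h u v
        by_cases e : u = v
        · simp [e, D.2]
        · have := h ⟨(u, v), e⟩
          simp [actO] at this
          simp [e]; grind

end Pool.Agent.Results.MP_1bfbc2_co.Formula
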